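import Mathlib
import Pool.Agent.Helper75.BG.Max

/-!
# The maximal equivariant compactification of a group has the dimension of the group

`CovDimLE X n`: the covering dimension of `X` is at most `n`; `covDim X` is the covering dimension.
`IsCompactification G ν`: `ν : X → Y` is a `G`-compactification; `IsMaximal G ν`: it is the maximal
one. A group acts on itself by left multiplication (`g • x = g * x`).
-/

set_option autoImplicit false

open Topology Set Filter Module
open scoped Manifold

namespace Pool.Agent.Results.MP_c6ee25_gt.LieGroups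

universe u v

/-- The covering dimension of `X` is at most `n`: every finite open cover has a finite open
refinement such that every point lies in at most `n + 1` of its members. -/
def CovDimLE (X : Type u) [TopologicalSpace X] (n : ℕ) : Prop :=
  ∀ (ι : Type) [Finite ι] (U : ι → Set X), (∀ i, IsOpen (U i)) → (⋃ i, U i) = Set.univ →
    ∃ (κ : Type) (_ : Finite κ) (V : κ → Set X),
      (∀ k, IsOpen (V k)) ∧ (⋃ k, V k) = Set.univ ∧ (∀ k, ∃ i, V k ⊆ U i) ∧
      ∀ x, Nat.card {k // x ∈ V k} ≤ n + 1

/-- The covering dimension of a (nonempty) space, `⊤` if it is infinite. -/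
noncomputable def covDim (X : Type u) [TopologicalSpace X] : ℕ∞ :=
  ⨅ (n : ℕ) (_ : CovDimLE X n), (n : ℕ∞)

/-- A `G`-compactification of a `G`-space `X`: a compact Hausdorff space `Y` with a continuous
action of `G` and a continuous equivariant map `ν : X → Y` with dense image. -/
structure IsCompactification (G : Type u) [Group G] [TopologicalSpace G] {X : Type u}
    [TopologicalSpace X] [MulAction G X] {Y : Type u} [TopologicalSpace Y] [MulAction G Y]
    (ν : X → Y) : Prop where
  compact : CompactSpace Y
  hausdorff : T2Space Y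
  action : Continuous fun p : G × Y => p.1 • p.2
  continuous : Continuous ν
  equivariant : ∀ (g : G) (x : X), ν (g • x) = g • ν x
  dense : DenseRange ν

/-- The maximal `G`-compactification of `X`: every `G`-compactification of `X` factors through it
by a unique equivariant continuous map. -/
def IsMaximal (G : Type u) [Group G] [TopologicalSpace G] {X : Type u} [TopologicalSpace X]
    [MulAction G X] {Y : Type u} [TopologicalSpace Y] [MulAction G Y] (ν : X → Y) : Prop :=
  IsCompactification G ν ∧ ∀ (Z : Type u) [TopologicalSpace Z] [MulAction G Z] (μ : X → Z),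
    IsCompactification G μ → ∃! f : Y → Z,
      Continuous f ∧ (∀ (g : G) (y : Y), f (g • y) = g • f y) ∧ ∀ x, f (ν x) = μ x

private lemma comp_iff {G : Type u} [Group G] [TopologicalSpace G] {X : Type u}
    [TopologicalSpace X] [MulAction G X] {Y : Type u} [TopologicalSpace Y] [MulAction G Y]
    (ν : X → Y) : IsCompactification G ν ↔ Pool.Agent.Helper75.BG.IsGComp G ν :=
  ⟨fun h => ⟨h.compact, h.hausdorff, h.action, h.continuous, h.equivariant, h.dense⟩,
    fun h => ⟨h.compact, h.hausdorff, h.action, h.continuous, h.equivariant, h.dense⟩⟩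

private lemma max_iff {G : Type u} [Group G] [TopologicalSpace G] {X : Type u}
    [TopologicalSpace X] [MulAction G X] {Y : Type u} [TopologicalSpace Y] [MulAction G Y]
    (ν : X → Y) : IsMaximal G ν ↔ Pool.Agent.Helper75.BG.IsMaxGComp G ν := by
  constructor
  · rintro ⟨h1, h2⟩
    exact ⟨(comp_iff ν).1 h1, fun Z _ _ μ hμ => h2 Z μ ((comp_iff μ).2 hμ)⟩
  · rintro ⟨h1, h2⟩
    exact ⟨(comp_iff ν).2 h1, fun Z _ _ μ hμ => h2 Z μ ((comp_iff μ).1 hμ)⟩

private lemma covDim_congr {X : Type u} {Y : Type v} [TopologicalSpace X] [TopologicalSpace Y]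
    (h : ∀ n, CovDimLE X n ↔ CovDimLE Y n) : covDim X = covDim Y := by
  unfold covDim
  simp only [h]

private lemma covDim_eq {X : Type u} [TopologicalSpace X] {m : ℕ}
    (h : ∀ n, CovDimLE X n ↔ m ≤ n) : covDim X = m := by
  unfold covDim
  simp only [h]
  refine le_antisymm (iInf₂_le m le_rfl) (le_iInf₂ fun n hn => by exact_mod_cast hn)

/-- The maximal `G`-compactification `β_G G` of a locally compact group `G` exists and has the
covering dimension of `G`; for a Lie group `G` both are the dimension of `G` as a manifold. -/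
theorem result :
    (∀ (G : Type u) [TopologicalSpace G] [Group G] [IsTopologicalGroup G] [LocallyCompactSpace G]
      [T2Space G],
      (∃ (Y : Type u) (_ : TopologicalSpace Y) (_ : MulAction G Y) (ν : G → Y), IsMaximal G ν) ∧
      ∀ (Y : Type u) [TopologicalSpace Y] [MulAction G Y] (ν : G → Y), IsMaximal G ν →
        covDim Y = covDim G) ∧
    (∀ (E : Type v) [NormedAddCommGroup E] [NormedSpace ℝ E] [FiniteDimensional ℝ E]
      (r : WithTop ℕ∞) (G : Type u) [TopologicalSpace G] [Group G] [ChartedSpace E G]
      [LieGroup 𝓘(ℝ, E) r G] [T2Space G],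
      (∃ (Y : Type u) (_ : TopologicalSpace Y) (_ : MulAction G Y) (ν : G → Y), IsMaximal G ν) ∧
      ∀ (Y : Type u) [TopologicalSpace Y] [MulAction G Y] (ν : G → Y), IsMaximal G ν →
        covDim Y = finrank ℝ E ∧ covDim G = finrank ℝ E) := by
  have hdim : ∀ (G : Type u) [TopologicalSpace G] [Group G] [IsTopologicalGroup G]
      [LocallyCompactSpace G] [T2Space G] (Y : Type u) [TopologicalSpace Y] [MulAction G Y]
      (ν : G → Y), IsMaximal G ν → ∀ n, CovDimLE Y n ↔
        Pool.Agent.Helper75.DimLE (Pool.Agent.Helper75.BG.Comp G) n := by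
    intro G _ _ _ _ _ Y _ _ ν hν n
    obtain ⟨e⟩ := Pool.Agent.Helper75.BG.exists_homeo ((max_iff ν).1 hν)
    exact ⟨fun h => Pool.Agent.Helper75.BG.dimLE_homeo e.symm h,
      fun h => Pool.Agent.Helper75.BG.dimLE_homeo e h⟩
  refine ⟨?_, ?_⟩
  · intro G _ _ _ _ _
    refine ⟨⟨_, _, _, _, (max_iff _).2 Pool.Agent.Helper75.BG.isMaxGComp_ev⟩, ?_⟩
    intro Y _ _ ν hν
    refine covDim_congr fun n => (hdim G Y ν hν n).trans ?_
    exact ⟨fun h => Pool.Agent.Helper75.BG.dimLE_of_dimLE_comp h,
      fun h => Pool.Agent.Helper75.BG.dimLE_comp_of_dimLE h⟩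
  · intro E _ _ _ r G _ _ _ _ _
    have h1 : IsTopologicalGroup G := topologicalGroup_of_lieGroup 𝓘(ℝ, E) r
    have h2 : LocallyCompactSpace G := Manifold.locallyCompact_of_finiteDimensional 𝓘(ℝ, E)
    refine ⟨⟨_, _, _, _, (max_iff _).2 Pool.Agent.Helper75.BG.isMaxGComp_ev⟩, ?_⟩
    intro Y _ _ ν hν
    refine ⟨covDim_eq fun n => (hdim G Y ν hν n).trans ?_, covDim_eq fun n => ?_⟩
    · exact (Pool.Agent.Helper75.BG.dim_lie E n).1
    · exact (Pool.Agent.Helper75.BG.dim_lie E n).2

end Pool.Agent.Results.MP_c6ee25_gt.LieGroups
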